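import Mathlib

set_option autoImplicit false

/-!
# A relatively free group of rank three that is not residually two-generator

Let `G` be the group of the matrices `[[1, x, z], [0, α, y], [0, 0, β]]` over the field with three
elements (order `108`) and let `V = var G`.  `G` is generated by two elements, so the relatively
free group `F₂(V)` maps onto `G` and generates `V`.

Every group `T` of `V` has a normal subgroup `N` of exponent three and class at most two with
`T / N` elementary abelian of exponent two.  For elements `a, b, c` generating `T` put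
`u = (1 - a)(1 + b)(1 + c) b²` and `v = (1 - a)(1 + b)(1 + c) c²` (module notation in `N / N'`).
Modulo `N'` the element `a` inverts `u` and `v` while `b` and `c` centralise them.  If `T = ⟨p, q⟩`
is generated by two elements, the part of `N / N'` on which `T` acts through a given nontrivial
sign character is cyclic (lemma `core`), so `[u, v] = 1`.  On the other hand `[u, v] ≠ 1` for
suitable `a, b, c` in `G`.  Hence `[u, v]` is a nontrivial element of `F₃(V)` which dies in every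
two-generator quotient.
-/

open scoped commutatorElement

namespace Pool.Agent.Results.MP_49fec2_al.NotResidually

section Core

/-- A group generated by two commuting involutions has exponent two. -/
lemma sq_eq_one_of_closure {G : Type*} [Group G] (p q : G) (hp : p ^ 2 = 1) (hq : q ^ 2 = 1)
    (hpq : p * q = q * p) (hgen : Subgroup.closure ({p, q} : Set G) = ⊤) (g : G) : g ^ 2 = 1 := by
  have hcen : ∀ x : G, x ∈ ({p, q} : Set G) → x ∈ Subgroup.center G := by
    intro x hx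
    rw [Subgroup.mem_center_iff]
    intro g
    have hg : g ∈ Subgroup.closure ({p, q} : Set G) := by rw [hgen]; trivial
    induction hg using Subgroup.closure_induction with
    | mem y hy =>
      rcases hx with rfl | rfl <;> rcases hy with rfl | rfl
      · rfl
      · exact hpq.symm
      · exact hpq
      · rfl
    | one => simp
    | mul y z _ _ hy hz => rw [mul_assoc, hz, ← mul_assoc, hy, mul_assoc]
    | inv y _ hy =>
      have : x = y * x * y⁻¹ := by rw [hy]; group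
      calc y⁻¹ * x = y⁻¹ * (y * x * y⁻¹) := by rw [← this]
        _ = x * y⁻¹ := by group
  have hle : (⊤ : Subgroup G) ≤ Subgroup.center G := by
    rw [← hgen, Subgroup.closure_le]
    exact hcen
  have hg : g ∈ Subgroup.closure ({p, q} : Set G) := by rw [hgen]; trivial
  induction hg using Subgroup.closure_induction with
  | mem y hy => rcases hy with rfl | rfl <;> assumption
  | one => simp
  | mul y z _ _ hy hz =>
    have hc : z * y = y * z := (Subgroup.mem_center_iff.mp (hle (Subgroup.mem_top y))) z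
    calc (y * z) ^ 2 = y * (z * y) * z := by rw [pow_two]; group
      _ = y ^ 2 * z ^ 2 := by rw [hc, pow_two, pow_two]; group
      _ = 1 := by rw [hy, hz, one_mul]
  | inv y _ hy => rw [inv_pow, hy, inv_one]

/-- The key dimension bound: in a two-generator group `T = ⟨p, q⟩` which is an extension of an
abelian group `N` of exponent three by an elementary abelian two-group, the elements of `N`
inverted by `p` and centralised by `q` form a cyclic group. -/
theorem core {T : Type*} [Group T] (N : Subgroup T) [hN : N.Normal]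
    (hcomm : ∀ x ∈ N, ∀ y ∈ N, x * y = y * x) (hsq : ∀ t : T, t ^ 2 ∈ N)
    (hcm : ∀ s t : T, s * t * s⁻¹ * t⁻¹ ∈ N) (h3 : ∀ x ∈ N, x ^ 3 = 1)
    (p q : T) (hgen : Subgroup.closure ({p, q} : Set T) = ⊤)
    (u : T) (hu : u ∈ N) (hpu : p * u * p⁻¹ = u⁻¹) (hqu : q * u * q⁻¹ = u) :
    u ∈ Subgroup.zpowers (q ^ 2 * (p * q ^ 2 * p⁻¹)⁻¹) := by
  let _ : CommGroup N :=
    { (inferInstance : Group N) with
      mul_comm := fun x y => Subtype.ext (hcomm x x.2 y y.2) }
  -- the additive group `A` and the actions of `p` and `q`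
  let A := Additive N
  let P : A →+ A := MonoidHom.toAdditive (MulAut.conjNormal p : MulAut N).toMonoidHom
  let Q : A →+ A := MonoidHom.toAdditive (MulAut.conjNormal q : MulAut N).toMonoidHom
  have hconj : ∀ (g : T) (x : N), ((MulAut.conjNormal g x : N) : T) = g * x * g⁻¹ :=
    fun g x => rfl
  have hPval : ∀ x : A, ((Additive.toMul (P x) : N) : T) =
      p * ((Additive.toMul x : N) : T) * p⁻¹ := fun x => rfl
  have hQval : ∀ x : A, ((Additive.toMul (Q x) : N) : T) =
      q * ((Additive.toMul x : N) : T) * q⁻¹ := fun x => rfl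
  have hext : ∀ x y : A, ((Additive.toMul x : N) : T) = ((Additive.toMul y : N) : T) → x = y := by
    intro x y h
    exact Additive.toMul.injective (Subtype.ext h)
  have hsqc : ∀ (t : T) (x : N), t * (t * (x : T) * t⁻¹) * t⁻¹ = x := by
    intro t x
    have := hcomm (t ^ 2) (hsq t) x x.2
    calc t * (t * (x : T) * t⁻¹) * t⁻¹ = (t ^ 2 * x) * (t ^ 2)⁻¹ := by rw [pow_two]; group
      _ = x := by rw [this]; group
  have hPP : ∀ x : A, P (P x) = x := fun x => hext _ _ (hsqc p x.toMul)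
  have hQQ : ∀ x : A, Q (Q x) = x := fun x => hext _ _ (hsqc q x.toMul)
  have hPQ : ∀ x : A, P (Q x) = Q (P x) := by
    intro x
    apply hext
    rw [hPval, hQval, hQval, hPval]
    generalize hx : ((Additive.toMul x : N) : T) = y
    have hy : y ∈ N := by rw [← hx]; exact (Additive.toMul x).2
    have h1 := hcomm _ (hcm p q) _ (hN.conj_mem _ hy (q * p))
    calc p * (q * y * q⁻¹) * p⁻¹ =
          (p * q * p⁻¹ * q⁻¹) * (q * p * y * (q * p)⁻¹) * (p * q * p⁻¹ * q⁻¹)⁻¹ := by group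
      _ = q * (p * y * p⁻¹) * q⁻¹ := by rw [h1]; group
  let a : A := Additive.ofMul ⟨p ^ 2, hsq p⟩
  let b : A := Additive.ofMul ⟨q ^ 2, hsq q⟩
  have hκ : q⁻¹ * p * q * p⁻¹ ∈ N := by
    have := hcm q⁻¹ p
    rwa [inv_inv] at this
  let κ : A := Additive.ofMul ⟨q⁻¹ * p * q * p⁻¹, hκ⟩
  have hPa : P a = a := by
    apply hext
    rw [hPval]
    show p * p ^ 2 * p⁻¹ = p ^ 2
    group
  have hQb : Q b = b := by
    apply hext
    rw [hQval]
    show q * q ^ 2 * q⁻¹ = q ^ 2
    group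
  have hQκ : Q κ = Additive.ofMul (⟨q⁻¹ * (q⁻¹ * p * q * p⁻¹) * q, by
      have := hN.conj_mem _ hκ q⁻¹
      rwa [inv_inv] at this⟩ : N) := by
    apply hext
    rw [hQval]
    show q * (q⁻¹ * p * q * p⁻¹) * q⁻¹ = q⁻¹ * (q⁻¹ * p * q * p⁻¹) * q
    have h1 := hcomm _ (hsq q) _ (hN.conj_mem _ hκ q⁻¹)
    rw [inv_inv] at h1
    calc q * (q⁻¹ * p * q * p⁻¹) * q⁻¹ =
          (q ^ 2 * (q⁻¹ * (q⁻¹ * p * q * p⁻¹) * q)) * (q ^ 2)⁻¹ := by rw [pow_two]; group
      _ = q⁻¹ * (q⁻¹ * p * q * p⁻¹) * q := by rw [h1]; group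
  have hPb : P b = b + (Q κ + κ) := by
    apply hext
    rw [hPval, hQκ]
    show p * q ^ 2 * p⁻¹ = q ^ 2 * ((q⁻¹ * (q⁻¹ * p * q * p⁻¹) * q) * (q⁻¹ * p * q * p⁻¹))
    rw [pow_two]
    group
  let π : A →+ A := (AddMonoidHom.id A + Q) - P.comp (AddMonoidHom.id A + Q)
  have hπ : ∀ x, π x = (x + Q x) - P (x + Q x) := fun x => rfl
  let v : A := b - P b
  have hπa : π a = 0 := by
    rw [hπ, map_add, hPQ, hPa]
    abel
  have hπb : π b = v + v := by
    rw [hπ, map_add, hQb]
    show _ = (b - P b) + (b - P b)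
    abel
  have hπκ : π κ = -(v + v) := by
    have h1 : κ + Q κ = P b - b := by rw [hPb]; abel
    rw [hπ, h1, map_sub, hPP]
    show _ = -((b - P b) + (b - P b))
    abel
  have hπP : ∀ x, π (P x) = -π x := by
    intro x
    rw [hπ, hπ, map_add, map_add, ← hPQ, hPP, hPP]
    abel
  have hπQ : ∀ x, π (Q x) = π x := by
    intro x
    rw [hπ, hπ, map_add, map_add, hQQ]
    abel
  let Y : Subgroup T :=
    { carrier := {t | ∃ h : t ∈ N, π (Additive.ofMul (⟨t, h⟩ : N)) ∈ AddSubgroup.zmultiples v}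
      mul_mem' := by
        rintro x y ⟨hx, hx'⟩ ⟨hy, hy'⟩
        refine ⟨N.mul_mem hx hy, ?_⟩
        have : (Additive.ofMul (⟨x * y, N.mul_mem hx hy⟩ : N) : A) =
          Additive.ofMul (⟨x, hx⟩ : N) + Additive.ofMul (⟨y, hy⟩ : N) := rfl
        rw [this, map_add]
        exact AddSubgroup.add_mem _ hx' hy'
      one_mem' := by
        refine ⟨N.one_mem, ?_⟩
        have : (Additive.ofMul (⟨1, N.one_mem⟩ : N) : A) = 0 := rfl
        rw [this, map_zero]
        exact AddSubgroup.zero_mem _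
      inv_mem' := by
        rintro x ⟨hx, hx'⟩
        refine ⟨N.inv_mem hx, ?_⟩
        have : (Additive.ofMul (⟨x⁻¹, N.inv_mem hx⟩ : N) : A) =
          - Additive.ofMul (⟨x, hx⟩ : N) := rfl
        rw [this, map_neg]
        exact AddSubgroup.neg_mem _ hx' }
  have hYn : Y.Normal := by
    constructor
    intro y hy g
    have hg : g ∈ Subgroup.closure ({p, q} : Set T) := by rw [hgen]; trivial
    induction hg using Subgroup.closure_induction generalizing y with
    | mem g hg =>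
      obtain ⟨hyN, hyπ⟩ := hy
      rcases hg with rfl | rfl
      · refine ⟨hN.conj_mem _ hyN _, ?_⟩
        have h1 := hπP (Additive.ofMul (⟨y, hyN⟩ : N))
        have h2 : (Additive.ofMul (⟨g * y * g⁻¹, hN.conj_mem _ hyN _⟩ : N) : A) =
          P (Additive.ofMul (⟨y, hyN⟩ : N)) := rfl
        rw [h2, h1]
        exact AddSubgroup.neg_mem _ hyπ
      · refine ⟨hN.conj_mem _ hyN _, ?_⟩
        have h1 := hπQ (Additive.ofMul (⟨y, hyN⟩ : N))
        have h2 : (Additive.ofMul (⟨g * y * g⁻¹, hN.conj_mem _ hyN _⟩ : N) : A) =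
          Q (Additive.ofMul (⟨y, hyN⟩ : N)) := rfl
        rw [h2, h1]
        exact hyπ
    | one => simpa using hy
    | mul g h _ _ hg hh =>
      have := hg _ (hh _ hy)
      have h2 : g * (h * y * h⁻¹) * g⁻¹ = g * h * y * (g * h)⁻¹ := by group
      rwa [h2] at this
    | inv g _ hg =>
      have h1 := hg _ hy
      have h2 := hcomm _ (hsq g) _ (hN.conj_mem _ hy.1 g⁻¹)
      rw [inv_inv] at h2
      have h3 : g * y * g⁻¹ = g⁻¹ * y * g := by
        calc g * y * g⁻¹ = (g ^ 2 * (g⁻¹ * y * g)) * (g ^ 2)⁻¹ := by rw [pow_two]; group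
          _ = g⁻¹ * y * g := by rw [h2]; group
      rw [inv_inv, ← h3]
      exact h1
  have hvz : v ∈ AddSubgroup.zmultiples v := AddSubgroup.mem_zmultiples v
  have haY : p ^ 2 ∈ Y := ⟨hsq p, by
    show π a ∈ _
    rw [hπa]; exact AddSubgroup.zero_mem _⟩
  have hbY : q ^ 2 ∈ Y := ⟨hsq q, by
    show π b ∈ _
    rw [hπb]; exact AddSubgroup.add_mem _ hvz hvz⟩
  have hκY : q⁻¹ * p * q * p⁻¹ ∈ Y := ⟨hκ, by
    show π κ ∈ _
    rw [hπκ]; exact AddSubgroup.neg_mem _ (AddSubgroup.add_mem _ hvz hvz)⟩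
  have hsqY : ∀ t : T, t ^ 2 ∈ Y := by
    intro t
    have hgenQ : Subgroup.closure ({(p : T ⧸ Y), (q : T ⧸ Y)} : Set (T ⧸ Y)) = ⊤ := by
      have h1 := congrArg (Subgroup.map (QuotientGroup.mk' Y)) hgen
      rw [MonoidHom.map_closure, Set.image_pair] at h1
      rw [Subgroup.map_top_of_surjective _ (QuotientGroup.mk'_surjective Y)] at h1
      exact h1
    have h := sq_eq_one_of_closure (p : T ⧸ Y) (q : T ⧸ Y)
      ((QuotientGroup.eq_one_iff _).mpr haY) ((QuotientGroup.eq_one_iff _).mpr hbY) (by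
        have h1 : ((q⁻¹ * p * q * p⁻¹ : T) : T ⧸ Y) = 1 := (QuotientGroup.eq_one_iff _).mpr hκY
        have h2 : ((q⁻¹ * p * q * p⁻¹ : T) : T ⧸ Y) =
          (q : T ⧸ Y)⁻¹ * (p : T ⧸ Y) * (q : T ⧸ Y) * (p : T ⧸ Y)⁻¹ := rfl
        rw [h2] at h1
        generalize (p : T ⧸ Y) = p' at *
        generalize (q : T ⧸ Y) = q' at *
        calc p' * q' = q' * (q'⁻¹ * p' * q' * p'⁻¹) * p' := by group
          _ = q' * p' := by rw [h1]; group) hgenQ (t : T ⧸ Y)
    exact (QuotientGroup.eq_one_iff _).mp h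
  have huY : u ∈ Y := by
    have h1 : (u ^ 2) ^ 2 = u := by
      calc (u ^ 2) ^ 2 = u ^ 3 * u := by rw [← pow_mul, ← pow_succ]
        _ = u := by rw [h3 u hu, one_mul]
    rw [← h1]
    exact hsqY _
  obtain ⟨huN, huπ⟩ := huY
  have hQu : Q (Additive.ofMul (⟨u, huN⟩ : N)) = Additive.ofMul (⟨u, huN⟩ : N) := by
    apply hext
    rw [hQval]
    exact hqu
  have hPu : P (Additive.ofMul (⟨u, huN⟩ : N)) = - Additive.ofMul (⟨u, huN⟩ : N) := by
    apply hext
    rw [hPval]
    exact hpu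
  have hπu : π (Additive.ofMul (⟨u, huN⟩ : N)) = Additive.ofMul (⟨u, huN⟩ : N) := by
    rw [hπ, map_add, hQu, hPu]
    apply hext
    show (u * u) / (u⁻¹ * u⁻¹) = u
    have := h3 u hu
    calc (u * u) / (u⁻¹ * u⁻¹) = u ^ 3 * u := by rw [div_eq_mul_inv]; group
      _ = u := by rw [this, one_mul]
  rw [hπu] at huπ
  obtain ⟨n, hn⟩ := AddSubgroup.mem_zmultiples_iff.mp huπ
  rw [Subgroup.mem_zpowers_iff]
  refine ⟨n, ?_⟩
  have h1 := congrArg (fun x : A => ((Additive.toMul x : N) : T)) hn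
  have h2 : ((Additive.toMul (n • v) : N) : T) = (q ^ 2 * (p * q ^ 2 * p⁻¹)⁻¹) ^ n := by
    rw [toMul_zsmul, SubgroupClass.coe_zpow]
    congr 1
    show q ^ 2 / (p * q ^ 2 * p⁻¹) = _
    rw [div_eq_mul_inv]
  rw [← h2]
  exact h1

end Core

/-- One step of the projection: `w ↦ w · w^{t⁻¹}` (in additive notation `(1 + t) w`). -/
def plus {T : Type*} [Group T] (t w : T) : T := w * (t * w * t⁻¹)

/-- `w ↦ w · (w^{t⁻¹})⁻¹` (in additive notation `(1 - t) w`). -/
def minus {T : Type*} [Group T] (t w : T) : T := w * (t * w * t⁻¹)⁻¹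

/-- The word separating the two- from the three-generator groups. -/
def sep {T : Type*} [Group T] (a b c : T) : T :=
  ⁅minus a (plus b (plus c (b ^ 2))), minus a (plus b (plus c (c ^ 2)))⁆

/-- The laws used. -/
structure Laws (T : Type*) [Group T] : Prop where
  l0 : ∀ x : T, (x ^ 2) ^ 3 = 1
  l1 : ∀ x y : T, (x ^ 4 * y ^ 4) ^ 3 = 1
  l2 : ∀ x y : T, (x * y * x⁻¹ * y⁻¹) ^ 3 = 1
  l3 : ∀ x y z : T, ⁅⁅x ^ 4, y ^ 4⁆, z ^ 4⁆ = 1

section Main

lemma pow_four_of_pow_three {T : Type*} [Group T] {x : T} (h : x ^ 3 = 1) : x ^ 4 = x := by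
  rw [pow_succ, h, one_mul]

/-- The normal subgroup of elements of order dividing three. -/
def threePart {T : Type*} [Group T] (hL : Laws T) : Subgroup T where
  carrier := {t | t ^ 3 = 1}
  mul_mem' := by
    intro x y hx hy
    have := hL.l1 x y
    rwa [pow_four_of_pow_three hx, pow_four_of_pow_three hy] at this
  one_mem' := by simp
  inv_mem' := by
    intro x hx
    show x⁻¹ ^ 3 = 1
    rw [inv_pow, show x ^ 3 = 1 from hx, inv_one]

instance {T : Type*} [Group T] (hL : Laws T) : (threePart hL).Normal := by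
  constructor
  intro x hx g
  show (g * x * g⁻¹) ^ 3 = 1
  rw [conj_pow, show x ^ 3 = 1 from hx]
  group

/-- The separating word vanishes on every generating triple of a two-generator group
satisfying the laws. -/
theorem sep_eq_one {T : Type*} [Group T] (hL : Laws T) (p q a b c : T)
    (hgen2 : Subgroup.closure ({p, q} : Set T) = ⊤)
    (hgen3 : Subgroup.closure ({a, b, c} : Set T) = ⊤) : sep a b c = 1 := by
  let N := threePart hL
  have hNmem : ∀ x : T, x ∈ N ↔ x ^ 3 = 1 := fun x => Iff.rfl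
  let D : Subgroup T := ⁅N, N⁆
  have hDN : D ≤ N := Subgroup.commutator_le_left N N
  have hDcen : ∀ d ∈ D, ∀ n ∈ N, ⁅d, n⁆ = 1 := by
    intro d hd n hn
    have : D ≤ Subgroup.centralizer (N : Set T) := by
      rw [Subgroup.commutator_le]
      intro x hx y hy
      rw [Subgroup.mem_centralizer_iff]
      intro z hz
      have h := hL.l3 x y z
      rw [pow_four_of_pow_three hx, pow_four_of_pow_three hy,
        pow_four_of_pow_three (show z ^ 3 = 1 from hz)] at h
      exact (commutatorElement_eq_one_iff_mul_comm.mp h).symm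
    have h2 := Subgroup.mem_centralizer_iff.mp (this hd) n hn
    exact commutatorElement_eq_one_iff_mul_comm.mpr h2.symm
  -- pass to `T ⧸ D`
  let mk : T →* T ⧸ D := QuotientGroup.mk' D
  have hmk1 : ∀ x : T, mk x = 1 ↔ x ∈ D := fun x => QuotientGroup.eq_one_iff x
  let M : Subgroup (T ⧸ D) := N.map mk
  have hMn : M.Normal := Subgroup.Normal.map inferInstance mk (QuotientGroup.mk'_surjective D)
  have hMcomm : ∀ x ∈ M, ∀ y ∈ M, x * y = y * x := by
    rintro _ ⟨x, hx, rfl⟩ _ ⟨y, hy, rfl⟩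
    have h1 : ⁅x, y⁆ ∈ D := Subgroup.commutator_mem_commutator hx hy
    have h2 := (hmk1 _).mpr h1
    rw [map_commutatorElement] at h2
    exact commutatorElement_eq_one_iff_mul_comm.mp h2
  have hMsq : ∀ t : T ⧸ D, t ^ 2 ∈ M := by
    intro t
    obtain ⟨t, rfl⟩ := QuotientGroup.mk'_surjective D t
    exact ⟨t ^ 2, hL.l0 t, map_pow _ _ _⟩
  have hMcm : ∀ s t : T ⧸ D, s * t * s⁻¹ * t⁻¹ ∈ M := by
    intro s t
    obtain ⟨s, rfl⟩ := QuotientGroup.mk'_surjective D s
    obtain ⟨t, rfl⟩ := QuotientGroup.mk'_surjective D t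
    exact ⟨s * t * s⁻¹ * t⁻¹, hL.l2 s t, rfl⟩
  have hM3 : ∀ x ∈ M, x ^ 3 = 1 := by
    rintro _ ⟨x, hx, rfl⟩
    rw [← map_pow, show x ^ 3 = 1 from hx, map_one]
  have hsqc : ∀ (t x : T ⧸ D), x ∈ M → t * (t * x * t⁻¹) * t⁻¹ = x := by
    intro t x hx
    have := hMcomm (t ^ 2) (hMsq t) x hx
    calc t * (t * x * t⁻¹) * t⁻¹ = (t ^ 2 * x) * (t ^ 2)⁻¹ := by rw [pow_two]; group
      _ = x := by rw [this]; group
  have hconj : ∀ (t x : T ⧸ D), x ∈ M → t * x * t⁻¹ ∈ M := fun t x hx => hMn.conj_mem x hx t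
  have hcc : ∀ (s t x : T ⧸ D), x ∈ M →
      s * (t * x * t⁻¹) * s⁻¹ = t * (s * x * s⁻¹) * t⁻¹ := by
    intro s t x hx
    have h1 := hMcomm _ (hMcm s t) _ (hconj (t * s) x hx)
    calc s * (t * x * t⁻¹) * s⁻¹ =
          (s * t * s⁻¹ * t⁻¹) * (t * s * x * (t * s)⁻¹) * (s * t * s⁻¹ * t⁻¹)⁻¹ := by group
      _ = t * (s * x * s⁻¹) * t⁻¹ := by rw [h1]; group
  have hplusM : ∀ (t x : T ⧸ D), x ∈ M → plus t x ∈ M := fun t x hx =>
    M.mul_mem hx (hconj t x hx)
  have hminusM : ∀ (t x : T ⧸ D), x ∈ M → minus t x ∈ M := fun t x hx =>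
    M.mul_mem hx (M.inv_mem (hconj t x hx))
  -- conjugation commutes with `plus` and `minus`
  have hcplus : ∀ (s t x : T ⧸ D), x ∈ M → s * plus t x * s⁻¹ = plus t (s * x * s⁻¹) := by
    intro s t x hx
    unfold plus
    rw [← hcc s t x hx]
    group
  have hcminus : ∀ (s t x : T ⧸ D), x ∈ M → s * minus t x * s⁻¹ = minus t (s * x * s⁻¹) := by
    intro s t x hx
    unfold minus
    rw [← hcc s t x hx]
    group
  have hplusfix : ∀ (t x : T ⧸ D), x ∈ M → t * plus t x * t⁻¹ = plus t x := by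
    intro t x hx
    unfold plus
    calc t * (x * (t * x * t⁻¹)) * t⁻¹ = (t * x * t⁻¹) * (t * (t * x * t⁻¹) * t⁻¹) := by group
      _ = (t * x * t⁻¹) * x := by rw [hsqc t x hx]
      _ = x * (t * x * t⁻¹) := hMcomm _ (hconj t x hx) _ hx
  have hminusinv : ∀ (t x : T ⧸ D), x ∈ M → t * minus t x * t⁻¹ = (minus t x)⁻¹ := by
    intro t x hx
    unfold minus
    calc t * (x * (t * x * t⁻¹)⁻¹) * t⁻¹ =
          (t * x * t⁻¹) * (t * (t * x * t⁻¹) * t⁻¹)⁻¹ := by group
      _ = (t * x * t⁻¹) * x⁻¹ := by rw [hsqc t x hx]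
      _ = (x * (t * x * t⁻¹)⁻¹)⁻¹ := by group
  let a' := mk a
  let b' := mk b
  let c' := mk c
  have hproj : ∀ w : T ⧸ D, w ∈ M →
      (a' * minus a' (plus b' (plus c' w)) * a'⁻¹ = (minus a' (plus b' (plus c' w)))⁻¹) ∧
      (b' * minus a' (plus b' (plus c' w)) * b'⁻¹ = minus a' (plus b' (plus c' w))) ∧
      (c' * minus a' (plus b' (plus c' w)) * c'⁻¹ = minus a' (plus b' (plus c' w))) := by
    intro w hw
    refine ⟨hminusinv _ _ (hplusM _ _ (hplusM _ _ hw)), ?_, ?_⟩
    · rw [hcminus _ _ _ (hplusM _ _ (hplusM _ _ hw)), hplusfix _ _ (hplusM _ _ hw)]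
    · rw [hcminus _ _ _ (hplusM _ _ (hplusM _ _ hw)), hcplus _ _ _ (hplusM _ _ hw),
        hplusfix _ _ hw]
  let u₁ : T := minus a (plus b (plus c (b ^ 2)))
  let u₂ : T := minus a (plus b (plus c (c ^ 2)))
  have hu₁' : mk u₁ = minus a' (plus b' (plus c' (b' ^ 2))) := rfl
  have hu₂' : mk u₂ = minus a' (plus b' (plus c' (c' ^ 2))) := rfl
  have hu₁M : mk u₁ ∈ M := by
    rw [hu₁']; exact hminusM _ _ (hplusM _ _ (hplusM _ _ (hMsq _)))
  have hu₂M : mk u₂ ∈ M := by
    rw [hu₂']; exact hminusM _ _ (hplusM _ _ (hplusM _ _ (hMsq _)))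
  have hp₁ := hproj (b' ^ 2) (hMsq _)
  have hp₂ := hproj (c' ^ 2) (hMsq _)
  rw [← hu₁'] at hp₁
  rw [← hu₂'] at hp₂
  -- every element fixes both or inverts both
  have hchi : ∀ t : T ⧸ D,
      (t * mk u₁ * t⁻¹ = mk u₁ ∧ t * mk u₂ * t⁻¹ = mk u₂) ∨
      (t * mk u₁ * t⁻¹ = (mk u₁)⁻¹ ∧ t * mk u₂ * t⁻¹ = (mk u₂)⁻¹) := by
    intro t
    have ht : t ∈ Subgroup.closure ({a', b', c'} : Set (T ⧸ D)) := by
      have h1 := congrArg (Subgroup.map mk) hgen3
      rw [MonoidHom.map_closure, Subgroup.map_top_of_surjective _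
        (QuotientGroup.mk'_surjective D)] at h1
      have h2 : (mk '' ({a, b, c} : Set T)) = {a', b', c'} := by
        rw [Set.image_insert_eq, Set.image_pair]
      rw [← h2, h1]
      trivial
    induction ht using Subgroup.closure_induction with
    | mem x hx =>
      rcases hx with rfl | rfl | rfl
      · exact Or.inr ⟨hp₁.1, hp₂.1⟩
      · exact Or.inl ⟨hp₁.2.1, hp₂.2.1⟩
      · exact Or.inl ⟨hp₁.2.2, hp₂.2.2⟩
    | one => left; simp
    | mul x y _ _ hx hy =>
      have e : ∀ z : T ⧸ D, x * y * z * (x * y)⁻¹ = x * (y * z * y⁻¹) * x⁻¹ := by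
        intro z; group
      have e' : ∀ z : T ⧸ D, x * z⁻¹ * x⁻¹ = (x * z * x⁻¹)⁻¹ := by
        intro z; group
      rw [e, e]
      rcases hy with ⟨h1, h2⟩ | ⟨h1, h2⟩ <;> rcases hx with ⟨h3, h4⟩ | ⟨h3, h4⟩
      · left; rw [h1, h2, h3, h4]; exact ⟨rfl, rfl⟩
      · right; rw [h1, h2, h3, h4]; exact ⟨rfl, rfl⟩
      · right; rw [h1, h2, e', e', h3, h4]; exact ⟨rfl, rfl⟩
      · left; rw [h1, h2, e', e', h3, h4]; exact ⟨inv_inv _, inv_inv _⟩
    | inv x _ hx =>
      have e : ∀ z : T ⧸ D, z ∈ M → x⁻¹ * z * x⁻¹⁻¹ = x * z * x⁻¹ := by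
        intro z hz
        have h1 := hsqc x (x⁻¹ * z * x⁻¹⁻¹) (hconj x⁻¹ z hz)
        calc x⁻¹ * z * x⁻¹⁻¹ = x * (x * (x⁻¹ * z * x⁻¹⁻¹) * x⁻¹) * x⁻¹ := h1.symm
          _ = x * z * x⁻¹ := by group
      rw [e _ hu₁M, e _ hu₂M]
      exact hx
  -- both lie in one cyclic group
  have hgen2' : Subgroup.closure ({mk p, mk q} : Set (T ⧸ D)) = ⊤ := by
    have h1 := congrArg (Subgroup.map mk) hgen2
    rw [MonoidHom.map_closure, Subgroup.map_top_of_surjective _
      (QuotientGroup.mk'_surjective D), Set.image_pair] at h1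
    exact h1
  have hcyc : ∃ v : T ⧸ D, v ∈ M ∧ mk u₁ ∈ Subgroup.zpowers v ∧ mk u₂ ∈ Subgroup.zpowers v := by
    have hval : ∀ x y : T ⧸ D, y ^ 2 * (x * y ^ 2 * x⁻¹)⁻¹ ∈ M := fun x y =>
      M.mul_mem (hMsq y) (M.inv_mem (hconj _ _ (hMsq y)))
    rcases hchi (mk p) with ⟨h1, h2⟩ | ⟨h1, h2⟩ <;> rcases hchi (mk q) with ⟨h3, h4⟩ | ⟨h3, h4⟩
    · -- everything fixes, so the elements are trivial
      have hall : ∀ t : T ⧸ D, t * mk u₁ * t⁻¹ = mk u₁ ∧ t * mk u₂ * t⁻¹ = mk u₂ := by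
        intro t
        have ht : t ∈ Subgroup.closure ({mk p, mk q} : Set (T ⧸ D)) := by rw [hgen2']; trivial
        induction ht using Subgroup.closure_induction with
        | mem x hx =>
          rcases hx with rfl | rfl
          · exact ⟨h1, h2⟩
          · exact ⟨h3, h4⟩
        | one => simp
        | mul x y _ _ hx hy =>
          have e : ∀ z : T ⧸ D, x * y * z * (x * y)⁻¹ = x * (y * z * y⁻¹) * x⁻¹ := by
            intro z; group
          rw [e, e, hy.1, hy.2]
          exact hx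
        | inv x _ hx =>
          have e : ∀ z : T ⧸ D, x * z * x⁻¹ = z → x⁻¹ * z * x⁻¹⁻¹ = z := by
            intro z hz
            calc x⁻¹ * z * x⁻¹⁻¹ = x⁻¹ * (x * z * x⁻¹) * x⁻¹⁻¹ := by rw [hz]
              _ = z := by group
          exact ⟨e _ hx.1, e _ hx.2⟩
      have htriv : ∀ z : T ⧸ D, z ∈ M → z = z⁻¹ → z = 1 := by
        intro z hz h
        have h5 := hM3 z hz
        have h6 : z ^ 2 = 1 := by
          rw [pow_two]
          nth_rewrite 2 [h]
          group
        calc z = z ^ 3 * (z ^ 2)⁻¹ := by group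
          _ = 1 := by rw [h5, h6]; simp
      refine ⟨1, M.one_mem, ?_, ?_⟩
      · rw [htriv _ hu₁M ((hall a').1.symm.trans hp₁.1)]; exact Subgroup.one_mem _
      · rw [htriv _ hu₂M ((hall a').2.symm.trans hp₂.1)]; exact Subgroup.one_mem _
    · -- `q` inverts, `p` fixes
      have hg : Subgroup.closure ({mk q, mk p} : Set (T ⧸ D)) = ⊤ := by
        rw [Set.pair_comm]; exact hgen2'
      exact ⟨_, hval _ _, core M hMcomm hMsq hMcm hM3 _ _ hg _ hu₁M h3 h1,
        core M hMcomm hMsq hMcm hM3 _ _ hg _ hu₂M h4 h2⟩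
    · exact ⟨_, hval _ _, core M hMcomm hMsq hMcm hM3 _ _ hgen2' _ hu₁M h1 h3,
        core M hMcomm hMsq hMcm hM3 _ _ hgen2' _ hu₂M h2 h4⟩
    · -- both invert: replace `q` by `p q`
      have hg : Subgroup.closure ({mk p, mk p * mk q} : Set (T ⧸ D)) = ⊤ := by
        rw [eq_top_iff, ← hgen2', Subgroup.closure_le]
        intro x hx
        have hpm : mk p ∈ Subgroup.closure ({mk p, mk p * mk q} : Set (T ⧸ D)) :=
          Subgroup.subset_closure (by simp)
        have hpqm : mk p * mk q ∈ Subgroup.closure ({mk p, mk p * mk q} : Set (T ⧸ D)) :=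
          Subgroup.subset_closure (by simp)
        rcases hx with rfl | rfl
        · exact hpm
        · have := Subgroup.mul_mem _ (Subgroup.inv_mem _ hpm) hpqm
          rwa [inv_mul_cancel_left] at this
      have e : ∀ z : T ⧸ D, mk p * z * (mk p)⁻¹ = z⁻¹ → mk q * z * (mk q)⁻¹ = z⁻¹ →
          (mk p * mk q) * z * (mk p * mk q)⁻¹ = z := by
        intro z h5 h6
        calc (mk p * mk q) * z * (mk p * mk q)⁻¹ =
              mk p * (mk q * z * (mk q)⁻¹) * (mk p)⁻¹ := by group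
          _ = (mk p * z * (mk p)⁻¹)⁻¹ := by rw [h6]; group
          _ = z := by rw [h5, inv_inv]
      exact ⟨_, hval _ _, core M hMcomm hMsq hMcm hM3 _ _ hg _ hu₁M h1 (e _ h1 h3),
        core M hMcomm hMsq hMcm hM3 _ _ hg _ hu₂M h2 (e _ h2 h4)⟩
  -- conclusion
  obtain ⟨v', ⟨v, hv, rfl⟩, hv₁, hv₂⟩ := hcyc
  obtain ⟨i, hi⟩ := Subgroup.mem_zpowers_iff.mp hv₁
  obtain ⟨j, hj⟩ := Subgroup.mem_zpowers_iff.mp hv₂
  have hlift : ∀ (x : T) (k : ℤ), mk v ^ k = mk x → ∃ d ∈ D, x = v ^ k * d := by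
    intro x k h
    refine ⟨(v ^ k)⁻¹ * x, ?_, by group⟩
    rw [← hmk1, map_mul, map_inv, map_zpow, h]
    group
  obtain ⟨d₁, hd₁, e₁⟩ := hlift u₁ i hi
  obtain ⟨d₂, hd₂, e₂⟩ := hlift u₂ j hj
  have hc : ∀ d ∈ D, ∀ n ∈ N, d * n = n * d := fun d hd n hn =>
    commutatorElement_eq_one_iff_mul_comm.mp (hDcen d hd n hn)
  show ⁅u₁, u₂⁆ = 1
  rw [commutatorElement_eq_one_iff_mul_comm, e₁, e₂]
  have hvi : v ^ i ∈ N := N.zpow_mem hv i
  have hvj : v ^ j ∈ N := N.zpow_mem hv j
  calc v ^ i * d₁ * (v ^ j * d₂) = v ^ i * (d₁ * v ^ j) * d₂ := by group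
    _ = v ^ i * (v ^ j * d₁) * d₂ := by rw [hc _ hd₁ _ hvj]
    _ = (v ^ i * v ^ j) * (d₁ * d₂) := by group
    _ = (v ^ j * v ^ i) * (d₂ * d₁) := by
        rw [hc _ hd₁ _ (hDN hd₂), ← zpow_add, ← zpow_add, add_comm]
    _ = v ^ j * (v ^ i * d₂) * d₁ := by group
    _ = v ^ j * (d₂ * v ^ i) * d₁ := by rw [hc _ hd₂ _ hvi]
    _ = v ^ j * d₂ * (v ^ i * d₁) := by group

end Main

section Varieties

/-- The group `G` satisfies all laws of the set `L` of words in countably many letters,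
i.e. it belongs to the variety defined by `L`. -/
def Satisfies (L : Set (FreeGroup ℕ)) (G : Type) [Group G] : Prop :=
  ∀ w ∈ L, ∀ φ : FreeGroup ℕ →* G, φ w = 1

/-- The verbal subgroup of `G` for the laws `L`: it is generated by all values in `G` of the
words of `L`. -/
def verbal (L : Set (FreeGroup ℕ)) (G : Type) [Group G] : Subgroup G :=
  Subgroup.closure {g | ∃ w ∈ L, ∃ φ : FreeGroup ℕ →* G, φ w = g}

instance verbal_normal (L : Set (FreeGroup ℕ)) (G : Type) [Group G] : (verbal L G).Normal := by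
  constructor
  intro n hn g
  unfold verbal at *
  induction hn using Subgroup.closure_induction with
  | mem x hx =>
    obtain ⟨w, hw, φ, rfl⟩ := hx
    exact Subgroup.subset_closure ⟨w, hw, (MulAut.conj g).toMonoidHom.comp φ, rfl⟩
  | one => simp
  | mul x y _ _ hx hy =>
    have : g * (x * y) * g⁻¹ = (g * x * g⁻¹) * (g * y * g⁻¹) := by group
    rw [this]; exact Subgroup.mul_mem _ hx hy
  | inv x _ hx =>
    have : g * x⁻¹ * g⁻¹ = (g * x * g⁻¹)⁻¹ := by group
    rw [this]; exact Subgroup.inv_mem _ hx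

/-- The relatively free group of rank `m` of the variety defined by `L`: the free group of
rank `m` modulo its verbal subgroup. -/
abbrev RelFree (L : Set (FreeGroup ℕ)) (m : ℕ) : Type :=
  FreeGroup (Fin m) ⧸ verbal L (FreeGroup (Fin m))

/-- The group `G` generates the variety defined by `L`: this is the smallest variety
containing `G`. -/
def GeneratesVariety (G : Type) [Group G] (L : Set (FreeGroup ℕ)) : Prop :=
  Satisfies L G ∧ ∀ L' : Set (FreeGroup ℕ), Satisfies L' G →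
    ∀ (H : Type) [Group H], Satisfies L H → Satisfies L' H

/-- The group `G` can be generated by `k` elements (repetitions allowed). -/
def IsKGenerator (k : ℕ) (G : Type) [Group G] : Prop :=
  ∃ f : Fin k → G, Subgroup.closure (Set.range f) = ⊤

/-- The group `G` is residually `k`-generator. -/
def ResiduallyKGenerator (k : ℕ) (G : Type) [Group G] : Prop :=
  ∀ g : G, g ≠ 1 → ∃ (N : Subgroup G) (_ : N.Normal), g ∉ N ∧ IsKGenerator k (G ⧸ N)

lemma Satisfies.of_surjective {L : Set (FreeGroup ℕ)} {G H : Type} [Group G] [Group H]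
    (f : G →* H) (hf : Function.Surjective f) (h : Satisfies L G) : Satisfies L H := by
  intro w hw φ
  choose g hg using hf
  have : φ = f.comp (FreeGroup.lift fun n => g (φ (FreeGroup.of n))) := by
    ext n
    simp [hg]
  rw [this, MonoidHom.comp_apply, h w hw, map_one]

lemma satisfies_relFree (L : Set (FreeGroup ℕ)) (m : ℕ) : Satisfies L (RelFree L m) := by
  intro w hw φ
  have hs := QuotientGroup.mk'_surjective (verbal L (FreeGroup (Fin m)))
  choose g hg using hs
  have : φ = (QuotientGroup.mk' (verbal L (FreeGroup (Fin m)))).comp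
      (FreeGroup.lift fun n => g (φ (FreeGroup.of n))) := by
    ext n
    simp only [MonoidHom.comp_apply, FreeGroup.lift_apply_of]
    exact (hg _).symm
  rw [this, MonoidHom.comp_apply, QuotientGroup.mk'_apply, QuotientGroup.eq_one_iff]
  exact Subgroup.subset_closure ⟨w, hw, _, rfl⟩

/-- The universal property of the relatively free group. -/
noncomputable def relLift (L : Set (FreeGroup ℕ)) (m : ℕ) {G : Type} [Group G]
    (hG : Satisfies L G) (f : Fin m → G) : RelFree L m →* G :=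
  QuotientGroup.lift _ (FreeGroup.lift f) (by
    intro x hx
    unfold verbal at hx
    induction hx using Subgroup.closure_induction with
    | mem x hx =>
      obtain ⟨w, hw, φ, rfl⟩ := hx
      exact hG w hw ((FreeGroup.lift f).comp φ)
    | one => exact map_one _
    | mul x y _ _ hx hy => exact Subgroup.mul_mem _ hx hy
    | inv x _ hx => exact Subgroup.inv_mem _ hx)

lemma relLift_of (L : Set (FreeGroup ℕ)) (m : ℕ) {G : Type} [Group G]
    (hG : Satisfies L G) (f : Fin m → G) (i : Fin m) :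
    relLift L m hG f (QuotientGroup.mk (FreeGroup.of i)) = f i := by
  simp [relLift]

end Varieties

section Example

/-- The group of upper triangular matrices `[[1, x, z], [0, α, y], [0, 0, β]]` over `ZMod 3`,
of order `108`. -/
@[ext] structure Tri where
  x : ZMod 3
  y : ZMod 3
  z : ZMod 3
  α : (ZMod 3)ˣ
  β : (ZMod 3)ˣ
deriving DecidableEq

namespace Tri

instance : Mul Tri :=
  ⟨fun g h => ⟨g.x * h.α + h.x, g.α * h.y + g.y * h.β, h.z + g.x * h.y + g.z * h.β,
    g.α * h.α, g.β * h.β⟩⟩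

instance : One Tri := ⟨⟨0, 0, 0, 1, 1⟩⟩

instance : Inv Tri :=
  ⟨fun g => ⟨-(g.x * g.α), -(g.α * g.y * g.β), g.x * g.α * g.y * g.β - g.z * g.β, g.α, g.β⟩⟩

lemma mul_def (g h : Tri) : g * h = ⟨g.x * h.α + h.x, g.α * h.y + g.y * h.β,
    h.z + g.x * h.y + g.z * h.β, g.α * h.α, g.β * h.β⟩ := rfl

lemma one_def : (1 : Tri) = ⟨0, 0, 0, 1, 1⟩ := rfl

lemma inv_def (g : Tri) : g⁻¹ = ⟨-(g.x * g.α), -(g.α * g.y * g.β),
    g.x * g.α * g.y * g.β - g.z * g.β, g.α, g.β⟩ := rfl

lemma unit_sq : ∀ a : (ZMod 3)ˣ, a * a = 1 := by decide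

lemma unit_sq' : ∀ a : (ZMod 3)ˣ, (a : ZMod 3) * (a : ZMod 3) = 1 := by decide

instance : Group Tri :=
  Group.ofLeftAxioms
    (by
      intro a b c
      simp only [mul_def, Units.val_mul]
      ext
      · show _ = (_ : ZMod 3)
        ring
      · show _ = (_ : ZMod 3)
        ring
      · show _ = (_ : ZMod 3)
        ring
      · simp [mul_assoc]
      · simp [mul_assoc])
    (by
      intro a
      simp only [mul_def, one_def]
      ext <;> simp)
    (by
      intro a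
      simp only [mul_def, one_def, inv_def]
      have h1 := unit_sq' a.α
      have h2 := unit_sq' a.β
      ext
      · show _ = (_ : ZMod 3)
        linear_combination (-a.x) * h1
      · show _ = (_ : ZMod 3)
        linear_combination (-(a.α : ZMod 3) * a.y) * h2
      · show _ = (_ : ZMod 3)
        linear_combination (-a.z + a.x * a.α * a.y) * h2
      · exact congrArg Units.val (unit_sq a.α)
      · exact congrArg Units.val (unit_sq a.β))

/-- The unitriangular elements. -/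
def IsUni (g : Tri) : Prop := g.α = 1 ∧ g.β = 1

lemma isUni_sq (g : Tri) : IsUni (g ^ 2) := by
  rw [pow_two]
  exact ⟨unit_sq _, unit_sq _⟩

lemma IsUni.mul {g h : Tri} (hg : IsUni g) (hh : IsUni h) : IsUni (g * h) := by
  refine ⟨?_, ?_⟩
  · show g.α * h.α = 1
    rw [hg.1, hh.1, one_mul]
  · show g.β * h.β = 1
    rw [hg.2, hh.2, one_mul]

lemma isUni_pow_four (g : Tri) : IsUni (g ^ 4) := by
  have : g ^ 4 = g ^ 2 * g ^ 2 := by rw [← pow_add]
  rw [this]
  exact (isUni_sq g).mul (isUni_sq g)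

lemma isUni_comm (g h : Tri) : IsUni (g * h * g⁻¹ * h⁻¹) := by
  constructor
  · show g.α * h.α * g.α * h.α = 1
    rw [mul_assoc, unit_sq]
  · show g.β * h.β * g.β * h.β = 1
    rw [mul_assoc, unit_sq]

lemma IsUni.pow_three {g : Tri} (hg : IsUni g) : g ^ 3 = 1 := by
  obtain ⟨x, y, z, α, β⟩ := g
  obtain ⟨h1, h2⟩ := hg
  simp only at h1 h2
  subst h1 h2
  have h3 : (3 : ZMod 3) = 0 := rfl
  rw [pow_succ, pow_two]
  simp only [mul_def, one_def, Units.val_one, mul_one, one_mul]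
  ext
  · show x + x + x = 0
    linear_combination x * h3
  · show y + (y + y) = 0
    linear_combination y * h3
  · show z + (x + x) * y + (z + x * y + z) = 0
    linear_combination (z + x * y) * h3
  · rfl
  · rfl

lemma IsUni.comm_eq {g h : Tri} (hg : IsUni g) (hh : IsUni h) :
    ⁅g, h⁆ = ⟨0, 0, g.x * h.y - h.x * g.y, 1, 1⟩ := by
  obtain ⟨x, y, z, α, β⟩ := g
  obtain ⟨x', y', z', α', β'⟩ := h
  obtain ⟨h1, h2⟩ := hg
  obtain ⟨h3, h4⟩ := hh
  simp only at h1 h2 h3 h4
  subst h1 h2 h3 h4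
  rw [commutatorElement_def]
  simp only [mul_def, inv_def, Units.val_one, mul_one, one_mul]
  ext
  · show x + x' + -x + -x' = 0
    ring
  · show -y' + (-y + (y' + y)) = 0
    ring
  · show _ = x * y' - x' * y
    ring
  · rfl
  · rfl

lemma laws : Laws Tri where
  l0 x := (isUni_sq x).pow_three
  l1 x y := ((isUni_pow_four x).mul (isUni_pow_four y)).pow_three
  l2 x y := (isUni_comm x y).pow_three
  l3 x y z := by
    rw [(isUni_pow_four x).comm_eq (isUni_pow_four y),
      IsUni.comm_eq ⟨rfl, rfl⟩ (isUni_pow_four z), one_def]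
    simp

/-- First generator. -/
def g₁ : Tri := ⟨1, 0, 0, 1, -1⟩

/-- Second generator. -/
def g₂ : Tri := ⟨0, -1, 0, -1, -1⟩

lemma closure_eq_top : Subgroup.closure ({g₁, g₂} : Set Tri) = ⊤ := by
  set H := Subgroup.closure ({g₁, g₂} : Set Tri) with hH
  have h1 : g₁ ∈ H := Subgroup.subset_closure (by simp)
  have h2 : g₂ ∈ H := Subgroup.subset_closure (by simp)
  have hu : (⟨1, 0, 0, 1, 1⟩ : Tri) ∈ H := by
    have : (⟨1, 0, 0, 1, 1⟩ : Tri) = g₁ ^ 4 := by decide
    rw [this]; exact H.pow_mem h1 4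
  have hs : (⟨0, 0, 0, 1, -1⟩ : Tri) ∈ H := by
    have : (⟨0, 0, 0, 1, -1⟩ : Tri) = g₁ ^ 3 := by decide
    rw [this]; exact H.pow_mem h1 3
  have hv : (⟨0, 1, 0, 1, 1⟩ : Tri) ∈ H := by
    have : (⟨0, 1, 0, 1, 1⟩ : Tri) = g₂ ^ 4 ∨ (⟨0, 1, 0, 1, 1⟩ : Tri) = g₂ ^ 8 := by decide
    rcases this with h | h
    · rw [h]; exact H.pow_mem h2 4
    · rw [h]; exact H.pow_mem h2 8
  have ht : (⟨0, 0, 0, -1, -1⟩ : Tri) ∈ H := by
    have : (⟨0, 0, 0, -1, -1⟩ : Tri) = g₂ ^ 3 := by decide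
    rw [this]; exact H.pow_mem h2 3
  have hw : (⟨0, 0, 1, 1, 1⟩ : Tri) ∈ H := by
    have : (⟨0, 0, 1, 1, 1⟩ : Tri) =
      ⁅(⟨1, 0, 0, 1, 1⟩ : Tri), (⟨0, 1, 0, 1, 1⟩ : Tri)⁆ := by decide
    rw [this, commutatorElement_def]
    exact H.mul_mem (H.mul_mem (H.mul_mem hu hv) (H.inv_mem hu)) (H.inv_mem hv)
  rw [eq_top_iff]
  rintro ⟨x, y, z, α, β⟩ -
  have hn : ∀ x y z : ZMod 3, (⟨x, y, z, 1, 1⟩ : Tri) ∈ H := by
    intro x y z
    have : ∀ x y z : ZMod 3, (⟨x, y, z, 1, 1⟩ : Tri) =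
        (⟨1, 0, 0, 1, 1⟩ : Tri) ^ x.val * (⟨0, 1, 0, 1, 1⟩ : Tri) ^ y.val *
          (⟨0, 0, 1, 1, 1⟩ : Tri) ^ (z - x * y).val := by decide
    rw [this x y z]
    exact H.mul_mem (H.mul_mem (H.pow_mem hu _) (H.pow_mem hv _)) (H.pow_mem hw _)
  have hd : ∀ α β : (ZMod 3)ˣ, (⟨0, 0, 0, α, β⟩ : Tri) ∈ H := by
    intro α β
    have : ∀ α β : (ZMod 3)ˣ, (⟨0, 0, 0, α, β⟩ : Tri) = 1 ∨
        (⟨0, 0, 0, α, β⟩ : Tri) = ⟨0, 0, 0, 1, -1⟩ ∨
        (⟨0, 0, 0, α, β⟩ : Tri) = ⟨0, 0, 0, -1, -1⟩ ∨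
        (⟨0, 0, 0, α, β⟩ : Tri) = ⟨0, 0, 0, 1, -1⟩ * ⟨0, 0, 0, -1, -1⟩ := by decide
    rcases this α β with h | h | h | h
    · rw [h]; exact H.one_mem
    · rw [h]; exact hs
    · rw [h]; exact ht
    · rw [h]; exact H.mul_mem hs ht
  have : (⟨x, y, z, α, β⟩ : Tri) = ⟨x * α, y * β, z * β, 1, 1⟩ * ⟨0, 0, 0, α, β⟩ := by
    have h1 := unit_sq' α
    have h2 := unit_sq' β
    simp only [mul_def]
    ext
    · show x = x * α * α + 0
      linear_combination (-x) * h1
    · show y = ((1 : (ZMod 3)ˣ) : ZMod 3) * 0 + y * β * β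
      linear_combination (-y) * h2
    · show z = 0 + x * α * 0 + z * β * β
      linear_combination (-z) * h2
    · simp
    · simp
  rw [this]
  exact H.mul_mem (hn _ _ _) (hd _ _)

lemma sep_ne_one : sep (⟨0, 0, 0, -1, 1⟩ : Tri) (⟨1, 0, 0, 1, 1⟩ : Tri) (⟨0, 1, 0, 1, 1⟩ : Tri) ≠ 1 := by
  decide

end Tri

/-- The set of all laws of the group `Tri`. -/
def lawsTri : Set (FreeGroup ℕ) := {w | ∀ φ : FreeGroup ℕ →* Tri, φ w = 1}

lemma satisfies_tri : Satisfies lawsTri Tri := fun _ hw φ => hw φ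

/-- The laws pass to every group of the variety. -/
lemma laws_of_satisfies {T : Type} [Group T] (h : Satisfies lawsTri T) : Laws T := by
  have key : ∀ w ∈ lawsTri, ∀ x y z : T,
      FreeGroup.lift (fun n : ℕ => if n = 0 then x else if n = 1 then y else z) w = 1 :=
    fun w hw x y z => h w hw _
  refine ⟨fun x => ?_, fun x y => ?_, fun x y => ?_, fun x y z => ?_⟩
  · have := key ((FreeGroup.of 0 ^ 2) ^ 3) (fun φ => by
      rw [map_pow, map_pow]; exact Tri.laws.l0 _) x 1 1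
    simpa using this
  · have := key ((FreeGroup.of 0 ^ 4 * FreeGroup.of 1 ^ 4) ^ 3) (fun φ => by
      rw [map_pow, map_mul, map_pow, map_pow]; exact Tri.laws.l1 _ _) x y 1
    simpa using this
  · have := key ((FreeGroup.of 0 * FreeGroup.of 1 * (FreeGroup.of 0)⁻¹ * (FreeGroup.of 1)⁻¹) ^ 3)
      (fun φ => by
        rw [map_pow, map_mul, map_mul, map_mul, map_inv, map_inv]; exact Tri.laws.l2 _ _) x y 1
    simpa using this
  · have := key ⁅⁅FreeGroup.of 0 ^ 4, FreeGroup.of 1 ^ 4⁆, FreeGroup.of 2 ^ 4⁆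
      (fun φ => by
        rw [map_commutatorElement, map_commutatorElement, map_pow, map_pow, map_pow]
        exact Tri.laws.l3 _ _ _) x y z
    simpa [map_commutatorElement] using this

lemma map_sep {G H : Type*} [Group G] [Group H] (f : G →* H) (a b c : G) :
    f (sep a b c) = sep (f a) (f b) (f c) := by
  simp only [sep, minus, plus, map_commutatorElement, map_mul, map_inv, map_pow]

/-- The relatively free group of rank two generates the variety. -/
lemma generates : GeneratesVariety (RelFree lawsTri 2) lawsTri := by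
  refine ⟨satisfies_relFree _ _, ?_⟩
  intro L' hL' H _ hH
  let f := relLift lawsTri 2 satisfies_tri ![Tri.g₁, Tri.g₂]
  have hf : Function.Surjective f := by
    rw [← MonoidHom.range_eq_top, eq_top_iff, ← Tri.closure_eq_top, Subgroup.closure_le]
    intro x hx
    rcases hx with rfl | rfl
    · exact ⟨_, relLift_of lawsTri 2 satisfies_tri ![Tri.g₁, Tri.g₂] 0⟩
    · exact ⟨_, relLift_of lawsTri 2 satisfies_tri ![Tri.g₁, Tri.g₂] 1⟩
  have hT : Satisfies L' Tri := hL'.of_surjective f hf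
  intro w hw φ
  exact hH w (fun ψ => hT w hw ψ) φ

/-- The relatively free group of rank three is not residually two-generator. -/
lemma not_residually : ¬ ResiduallyKGenerator 2 (RelFree lawsTri 3) := by
  intro hres
  let e : Fin 3 → RelFree lawsTri 3 := fun i => QuotientGroup.mk (FreeGroup.of i)
  have hne : sep (e 0) (e 1) (e 2) ≠ 1 := by
    intro h
    let f := relLift lawsTri 3 satisfies_tri
      ![(⟨0, 0, 0, -1, 1⟩ : Tri), (⟨1, 0, 0, 1, 1⟩ : Tri), (⟨0, 1, 0, 1, 1⟩ : Tri)]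
    have h1 := congrArg f h
    rw [map_sep, map_one] at h1
    have hfe : ∀ i, f (e i) = ![(⟨0, 0, 0, -1, 1⟩ : Tri), (⟨1, 0, 0, 1, 1⟩ : Tri),
        (⟨0, 1, 0, 1, 1⟩ : Tri)] i := fun i => relLift_of lawsTri 3 satisfies_tri _ i
    rw [hfe, hfe, hfe] at h1
    exact Tri.sep_ne_one h1
  obtain ⟨N, hN, hgN, g, hg⟩ := hres _ hne
  apply hgN
  rw [← QuotientGroup.eq_one_iff]
  have hT : Satisfies lawsTri (RelFree lawsTri 3 ⧸ N) :=
    (satisfies_relFree lawsTri 3).of_surjective _ (QuotientGroup.mk'_surjective N)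
  have h3 : Subgroup.closure ({(QuotientGroup.mk' N) (e 0), (QuotientGroup.mk' N) (e 1),
      (QuotientGroup.mk' N) (e 2)} : Set (RelFree lawsTri 3 ⧸ N)) = ⊤ := by
    have h4 : Subgroup.closure (Set.range (FreeGroup.of : Fin 3 → FreeGroup (Fin 3))) = ⊤ :=
      FreeGroup.closure_range_of _
    let F : FreeGroup (Fin 3) →* RelFree lawsTri 3 ⧸ N := (QuotientGroup.mk' N).comp
      (QuotientGroup.mk' (verbal lawsTri (FreeGroup (Fin 3))))
    have hF : Function.Surjective F := by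
      intro x
      obtain ⟨y, rfl⟩ := QuotientGroup.mk'_surjective N x
      obtain ⟨z, rfl⟩ := QuotientGroup.mk'_surjective _ y
      exact ⟨z, rfl⟩
    have h5 := congrArg (Subgroup.map F) h4
    rw [MonoidHom.map_closure, Subgroup.map_top_of_surjective _ hF] at h5
    rw [← h5]
    congr 1
    ext x
    simp only [Set.mem_insert_iff, Set.mem_singleton_iff, Set.mem_image, Set.mem_range]
    constructor
    · rintro (rfl | rfl | rfl)
      · exact ⟨_, ⟨0, rfl⟩, rfl⟩
      · exact ⟨_, ⟨1, rfl⟩, rfl⟩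
      · exact ⟨_, ⟨2, rfl⟩, rfl⟩
    · rintro ⟨_, ⟨i, rfl⟩, rfl⟩
      fin_cases i
      · exact Or.inl rfl
      · exact Or.inr (Or.inl rfl)
      · exact Or.inr (Or.inr rfl)
  have h2 : Subgroup.closure ({g 0, g 1} : Set (RelFree lawsTri 3 ⧸ N)) = ⊤ := by
    rw [← hg]
    congr 1
    ext x
    simp only [Set.mem_insert_iff, Set.mem_singleton_iff, Set.mem_range]
    constructor
    · rintro (rfl | rfl)
      · exact ⟨0, rfl⟩
      · exact ⟨1, rfl⟩
    · rintro ⟨i, rfl⟩
      fin_cases i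
      · exact Or.inl rfl
      · exact Or.inr rfl
  have h6 := sep_eq_one (laws_of_satisfies hT) (g 0) (g 1) _ _ _ h2 h3
  rw [← map_sep] at h6
  exact h6

end Example

/-- There are a variety of groups (given by a set `L` of laws) and integers `k < n` such that the
relatively free group of rank `k` generates the variety, but the relatively free group of rank
`n` is not residually `k`-generator. -/
theorem result :
    ∃ (L : Set (FreeGroup ℕ)) (k n : ℕ), k < n ∧ GeneratesVariety (RelFree L k) L ∧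
      ¬ ResiduallyKGenerator k (RelFree L n) :=
  ⟨lawsTri, 2, 3, by norm_num, generates, not_residually⟩

end Pool.Agent.Results.MP_49fec2_al.NotResidually
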